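import Pool.Agent.Q274.AV.Fam

/-!
# The parity conjecture for semistable abelian varieties: descent along families of fields

`A` is a semistable abelian variety over a number field `K`, and `F` runs through finite extensions of
`K`; no condition on the ramification of `F/K`. The definitions are in `Pool/Agent/Q274/AV/Defs.lean`:
`SemistableAV K` (the Galois representation `A(K̄) ⊗ ℚ`, the dimension, and at every prime the torus
in the reduction with the action of Frobenius on its characters), `rank`, `rootNumber`, `Parity`.
-/

set_option autoImplicit false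

namespace Pool.Agent.Results.MP_ac3185_nt.DescentAlongFamilies

open NumberField Module IsDedekindDomain Pool.Agent.Q274.AV

/-- A family of finite extensions of `K`, closed under isomorphisms and composita, such that every `σ`
fixes an odd number of the embeddings of some field of the family. -/
def OddFamily {K : Type} [Field K] (𝓕 : Set (IntermediateField K (AlgebraicClosure K))) : Prop :=
  (∀ F ∈ 𝓕, FiniteDimensional K F) ∧
  (∀ F ∈ 𝓕, ∀ F' : IntermediateField K (AlgebraicClosure K), Nonempty (F ≃ₐ[K] F') → F' ∈ 𝓕) ∧
  (∀ F ∈ 𝓕, ∀ F' ∈ 𝓕, F ⊔ F' ∈ 𝓕) ∧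
  ∀ σ : Gal(AlgebraicClosure K/K), ∃ F ∈ 𝓕, Odd (fix K F σ)

/-- The group `G` has a cyclic normal subgroup of odd order with quotient a 2-group. -/
def TwoHyperelementary (G : Type) [Group G] : Prop :=
  ∃ C : Subgroup G, C.Normal ∧ IsCyclic C ∧ Odd (Nat.card C) ∧ ∀ g : G, ∃ k : ℕ, g ^ 2 ^ k ∈ C

/-- The sum of the exponents of the local root numbers of `A/F`: the dimensions of the split tori at
the primes, and `dim A` at every archimedean place. -/
noncomputable def exponent {K : Type} [Field K] [NumberField K] (A : SemistableAV K) (F : Type)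
    [Field F] [NumberField F] [Algebra K F] : ℕ :=
  (∑ᶠ w : HeightOneSpectrum (𝓞 F), A.split w) + A.dim * Nat.card (InfinitePlace F)

theorem exponent_eq {K : Type} [Field K] [NumberField K] (A : SemistableAV K) (F : Type)
    [Field F] [NumberField F] [Algebra K F] : A.rank F + exponent A F = tot A F := by
  have h1 := split_sum A F
  unfold exponent tot
  rw [h1]
  have h2 : Nat.card (InfinitePlace F) = Pool.Agent.Q92.PA.pl F := rfl
  rw [h2]
  ring

/-- **Descent along families of fields.** Let `A` be a semistable abelian variety over a number field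
`K`.
1. In every relation `∑ n_j · 1_{F_j} = m` between the permutation characters of finite extensions
`F_j` of `K`, the same relation holds for the numbers rank + exponent of the root number of `A` over
these fields.
2. Let `𝓕` be a family of finite extensions in the algebraic closure of `K`, closed under isomorphisms
and composita, such that for every `σ` some `F ∈ 𝓕` has an odd number of embeddings fixed by `σ`. If
the parity conjecture holds for `A/F` for all `F ∈ 𝓕`, it holds for `A/K`.
3. Let `L/K` be a Galois extension. If it holds for `A/F` for all intermediate fields `F` such that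
`Gal(L/F)` has a cyclic normal subgroup of odd order with quotient a 2-group, it holds for all
intermediate fields. -/
theorem result (K : Type) [Field K] [NumberField K] (A : SemistableAV K) :
    (∀ (ι : Type) [Fintype ι] (F : ι → Type) [∀ j, Field (F j)] [∀ j, NumberField (F j)]
      [∀ j, Algebra K (F j)] (n : ι → ℤ) (m : ℤ),
      (∀ σ : Gal(AlgebraicClosure K/K), ∑ j, n j * (fix K (F j) σ : ℤ) = m) →
      ∑ j, n j * (A.rank (F j) + exponent A (F j) : ℤ) = m * (A.rank K + exponent A K : ℤ)) ∧
    (∀ 𝓕 : Set (IntermediateField K (AlgebraicClosure K)), OddFamily 𝓕 →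
      (∀ F ∈ 𝓕, ∀ [NumberField F], A.Parity F) → A.Parity K) ∧
    ∀ (L : Type) [Field L] [NumberField L] [Algebra K L] [IsGalois K L],
      (∀ (F : Type) [Field F] [NumberField F] [Algebra K F] [Algebra F L] [IsScalarTower K F L],
        TwoHyperelementary (L ≃ₐ[F] L) → A.Parity F) →
      ∀ (F : Type) [Field F] [NumberField F] [Algebra K F] [Algebra F L] [IsScalarTower K F L],
        A.Parity F := by
  refine ⟨?_, ?_, ?_⟩
  · intro ι _ F _ _ _ n m h
    let Y : ι → Pool.Agent.Q5.BR.Ext K := fun j => @Pool.Agent.Q5.BR.Ext.mk K _ _ (F j) _ _ _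
    have h1 := tot_relK A (Y := Y) (n := n) (m := m) (fun τ => by
      rw [← h τ]
      refine Finset.sum_congr rfl fun j _ => ?_
      rw [fix_eq])
    have h2 : ∀ (F : Type) [Field F] [NumberField F] [Algebra K F],
        (A.rank F + exponent A F : ℤ) = (tot A F : ℤ) := by
      intro F _ _ _
      rw [← exponent_eq]
      push_cast
      rfl
    rw [h2, ← h1]
    exact Finset.sum_congr rfl fun j _ => by rw [h2]
  · rintro 𝓕 ⟨h1, h2, h3, h4⟩ h5
    rw [parity_iff]
    refine av_family A ⟨h1, h2, h3, fun σ => ?_⟩ (fun F hF _ => (parity_iff A F).1 (h5 F hF))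
    obtain ⟨F, hF, hodd⟩ := h4 σ
    have hfd := h1 F hF
    have hnf : NumberField F := NumberField.of_module_finite K F
    refine ⟨F, hF, ?_⟩
    rw [← fix_eq]
    exact fun h => Nat.not_even_iff_odd.2 hodd (even_iff_two_dvd.2 h)
  · intro L _ _ _ _ h F _ _ _ _ _
    refine av_hyper A L ?_ F
    rintro F' _ _ _ _ _ ⟨C, h1, h2, h3, h4⟩
    exact h F' ⟨C, h1, h2, Nat.coprime_two_right.1 h3, h4⟩

end Pool.Agent.Results.MP_ac3185_nt.DescentAlongFamilies
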