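import Pool.Agent.Q274.AV.Fam

/-!
# The parity conjecture for semistable abelian varieties: fields without automorphisms

`A` is a semistable abelian variety over a number field `K`, and `F` runs through finite extensions of
`K`; no condition on the ramification of `F/K`. The definitions are in `Pool/Agent/Q274/AV/Defs.lean`:
`SemistableAV K` (the Galois representation `A(K̄) ⊗ ℚ`, the dimension, and at every prime the torus
in the reduction with the action of Frobenius on its characters), `rank`, `rootNumber`, `Parity`.
-/

set_option autoImplicit false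

namespace Pool.Agent.Results.MP_ac3185_nt.FieldsWithoutAutomorphisms

open NumberField Module Pool.Agent.Q274.AV

/-- The identity is the only automorphism of the field `F`. -/
def NoAutomorphisms (F : Type) [Field F] : Prop :=
  ∀ (τ : F ≃+* F) (x : F), τ x = x

/-- A class of degrees: a set of positive integers such that `d * p` belongs to it with `d`, for all
prime numbers `p` above some bound. For example the odd numbers, the numbers exactly divisible by
`2 ^ a`, the numbers prime to a given one, the multiples of a given one. -/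
def IsClass (D : Set ℕ) : Prop :=
  ∃ p₀ : ℕ, ∀ d ∈ D, ∀ p : ℕ, p.Prime → p₀ < p → d * p ∈ D

/-- A family of finite extensions of `K` inside the algebraic closure, closed under isomorphisms and
under passing to larger finite extensions. -/
def IsUpwardClosed {K : Type} [Field K] (𝓕 : Set (IntermediateField K (AlgebraicClosure K))) :
    Prop :=
  (∀ F ∈ 𝓕, FiniteDimensional K F) ∧
  (∀ F ∈ 𝓕, ∀ F' : IntermediateField K (AlgebraicClosure K), Nonempty (F ≃ₐ[K] F') → F' ∈ 𝓕) ∧
  ∀ F ∈ 𝓕, ∀ F' : IntermediateField K (AlgebraicClosure K), FiniteDimensional K F' → F ≤ F' → F' ∈ 𝓕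

theorem not_two_dvd {m : ℕ} (h : Odd m) : ¬ (2 : ℤ) ∣ (m : ℤ) := by
  intro h2
  have h3 : 2 ∣ m := by exact_mod_cast h2
  exact (Nat.not_even_iff_odd.2 h) (even_iff_two_dvd.2 h3)

/-- **The parity conjecture for semistable abelian varieties: the fields without automorphisms
suffice.** Let `A` be a semistable abelian variety over a number field `K`.
1. If the parity conjecture fails for `A/K`, then for every prime number `p > [K : ℚ] + 1` it fails for
`A/X` for some `X/K` without automorphisms, `[X : K]` equal to `p` or `p ^ 2`.
2. Let `D` be closed under multiplication by the large prime numbers. If it holds for `A/X` for all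
`X/K` without automorphisms with `[X : K] ∈ D`, it holds for `A/F` for all `F/K` with `[F : K] ∈ D`.
3. If it holds for `A/X` for all `X/K` without automorphisms with `M ∣ [X : K]`, it holds for all `F/K`
such that `M / gcd(M, [F : K])` is odd.
4. Let `𝓕` be a family of finite extensions of `K`, closed under isomorphisms and larger fields, such
that every `σ` fixes an odd number of the embeddings of some `F ∈ 𝓕`. If it holds for `A/F` for all
`F ∈ 𝓕` without automorphisms, it holds for `A/K`. -/
theorem result (K : Type) [Field K] [NumberField K] (A : SemistableAV K) :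
    (¬ A.Parity K → ∀ p : ℕ, p.Prime → finrank ℚ K + 1 < p →
      ∃ (X : Type) (_ : Field X) (_ : NumberField X) (_ : Algebra K X), NoAutomorphisms X ∧
        (finrank K X = p ∨ finrank K X = p ^ 2) ∧ ¬ A.Parity X) ∧
    (∀ D : Set ℕ, IsClass D →
      (∀ (X : Type) [Field X] [NumberField X] [Algebra K X], NoAutomorphisms X →
        finrank K X ∈ D → A.Parity X) →
      ∀ (F : Type) [Field F] [NumberField F] [Algebra K F], finrank K F ∈ D → A.Parity F) ∧
    (∀ M : ℕ, (∀ (X : Type) [Field X] [NumberField X] [Algebra K X], NoAutomorphisms X →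
        M ∣ finrank K X → A.Parity X) →
      ∀ (F : Type) [Field F] [NumberField F] [Algebra K F],
        Odd (M / M.gcd (finrank K F)) → A.Parity F) ∧
    ∀ 𝓕 : Set (IntermediateField K (AlgebraicClosure K)), IsUpwardClosed 𝓕 →
      (∀ σ : Gal(AlgebraicClosure K/K), ∃ F ∈ 𝓕, Odd (fix K F σ)) →
      (∀ F ∈ 𝓕, NoAutomorphisms F → ∀ [NumberField F], A.Parity F) → A.Parity K := by
  have hlaw := av_law A
  refine ⟨?_, ?_, ?_, ?_⟩
  · intro hnot p hp hlt
    by_contra hcon
    push Not at hcon
    apply hnot
    have h1 := Pool.Agent.Q5.RX.prime_of_rigid hlaw K hp hlt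
      (fun X _ _ iKX iKX' hst hX hdeg => by
        have e : iKX' = iKX := Algebra.algebra_ext _ _ fun r =>
          ((@IsScalarTower.algebraMap_apply K K X _ _ _ _ iKX' iKX hst r)).symm
        subst e
        exact (parity_iff' A X).1 (hcon X _ inferInstance _ hX hdeg))
    have hp2 : p ≠ 2 := by
      have : 0 < finrank ℚ K := finrank_pos
      omega
    rw [parity_iff]
    exact Pool.Agent.Q92.PA.even_of_odd (not_two_dvd (hp.odd_of_ne_two hp2)) h1
  · rintro D ⟨p₀, hD⟩ h F _ _ _ hF
    rw [parity_iff']
    exact Pool.Agent.Q5.RX.rigid_degree_law hlaw hD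
      (fun X _ _ _ hr hd => (parity_iff' A X).1 (h X hr hd)) F hF
  · intro M h F _ _ _ hM
    rw [parity_iff]
    exact Pool.Agent.Q92.PA.even_of_odd (not_two_dvd hM)
      (Pool.Agent.Q5.RF.gen_rigid_power_law hlaw (M := M)
        (fun F' _ _ _ hr hd => (parity_iff' A F').1 (h F' hr hd)) F)
  · rintro 𝓕 ⟨h1, h2, h3⟩ h4 h5
    rw [parity_iff]
    refine av_family A (𝓕 := 𝓕) ⟨h1, h2, fun F hF F' hF' => ?_,
      fun σ => ?_⟩ (fun F hF hnf => ?_)
    · have hfd := h1 F hF
      have hfd' := h1 F' hF'
      exact h3 F hF _ inferInstance le_sup_left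
    · obtain ⟨F, hF, hodd⟩ := h4 σ
      have hfd := h1 F hF
      have hnf : NumberField F := NumberField.of_module_finite K F
      refine ⟨F, hF, ?_⟩
      rw [← fix_eq]
      exact fun h => Nat.not_even_iff_odd.2 hodd (even_iff_two_dvd.2 h)
    · rw [← parity_iff, parity_iff']
      refine Pool.Agent.Q5.RW.one_of_rigid hlaw F fun X _ _ _ _ _ hX => ?_
      obtain ⟨X', hle, hfd, ⟨e⟩⟩ := Pool.Agent.Q5.RW.exists_inside F X
      have hnf' : NumberField X' := NumberField.of_module_finite K _
      refine Pool.Agent.Q5.RW.isLaw_iso hlaw e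
        ((parity_iff' A X').1 (@h5 X' (h3 F hF X' hfd hle) ?_ hnf'))
      intro τ x
      have h8 := hX ((e.toRingEquiv.trans τ).trans e.symm.toRingEquiv) (e.symm x)
      change e.symm (τ (e (e.symm x))) = e.symm x at h8
      rw [e.apply_symm_apply] at h8
      exact e.symm.injective h8

end Pool.Agent.Results.MP_ac3185_nt.FieldsWithoutAutomorphisms
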