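import Pool.Agent.Q274.BKC.Tw

/-!
# The parity conjecture for the twists of the abelian varieties of Gross

Let `q ≡ 7 mod 8` be a prime, `K = ℚ(√-q)`, `h` its class number (odd), and let `ψ` be the canonical Hecke character of
Gross, of conductor `√-q`: `ψ((β)) = (A / q) β` for `β = A + B √-q`, `A`, `B` integers. Let `B(q)` be the abelian
variety of Gross over `ℚ` of dimension `h`: the restriction of scalars from `ℚ(j)` to `ℚ` of the elliptic
curve `A(q)` with complex multiplication by the integers of `K`; for `q = 7` it is the curve `X_0(49)`. The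
dimensions `h = h(-q) = 1, 3, 3, 5, 7, 5, …` (`q = 7, 23, 31, 47, 71, 79, …`) are not bounded. `B(q)` is of
`GL_2`-type, with real multiplication by a totally real field `T⁺` of degree `h`, and over `K` it has complex
multiplication by the field `T = T⁺ K` generated by the values of `ψ`. For a squarefree integer `D ≥ 1` let
`B(q)^(D)` be the quadratic twist. Its L-function is the product of the L-functions of the `h` conjugates of the
Hecke character `ψ` twisted by the quadratic character of `D`.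

**The root number.** For `q ≡ 7 mod 8` the root number of `ψ` is `+1` (Gross), and a twist by a `D ≥ 1` with all
prime factors `1` modulo `4` and prime to `q` does not change it. So the product of the local root
numbers of `B(q)^(D)` over `ℚ` is `1`. This is known and not formalized.

**The rank.** `2` splits in `K`: `v` is the prime above `2` at which `s = √-q` is `3` modulo `4` and `v'` is the prime
at which `s` is `1` modulo `4`; `t` is the image of `s` in `K_v = ℚ_2`. Since `h` is odd there is exactly one place `λ` of `T`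
above `v` with `T_λ = ℚ_2`. The group `G_K` acts on the Tate module at this place by a continuous
character `χ : G_K → ℤ_2^*` with `χ(Frob)^n = (A / q) (D / N(w)^n) (A + B t)` for the primes `w ∤ 2 q D` of `K` with
`w^n = (A + B s)`, `n` odd (`BelongsTo`; `χ` is unique by Chebotarev's theorem, it exists by the theory of complex
multiplication, which is not used here). The group `B(q)^(D)(K) ⊗ ℚ` is a vector space
over `T`, and the Kummer map embeds its tensor product with `T_λ` over `T` into the group `H¹_f(K, ℚ_2(χ))`. So, if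
`H¹_f(K, ℚ_2(χ)) = 0`, then `B(q)^(D)(K)` and `B(q)^(D)(ℚ)` are finite, the ranks are `0`, and the parity
conjecture (Q1) is true for `B(q)^(D)` over `ℚ`, and for its products.

Here `H¹_f(K, ℚ_2(χ))` consists of the classes of the continuous cocycles which are coboundaries on the
inertia groups of all primes not above `2` and on the decomposition groups of the primes above `v'`, with no
condition at `v`. (The Hodge–Tate weights of `χ` are `1` at `v` and `0` at `v'`; the images of the points satisfy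
these conditions.)

Let `D` be in the following class: all prime factors are `1` modulo `4` and different from `q`, and
`2 D ≡ q - 5` modulo `16`. Let `R(D)` be the following symmetric matrix over `𝔽₂`, with rows and columns
indexed by the prime factors `p` of `D` which split in `K`: the entry at `(p, p')` is `0` if `p'` is a square
modulo `p` and `1` otherwise; the diagonal entry at `p` is the sum of the symbols of all the other prime
factors of `D` modulo `p` and of the symbol which is `0` if `-q` is a fourth power modulo `p` and `1`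
otherwise.

**Theorem.** (1) For all `D` of the class `dim H¹_f(K, ℚ_2(χ)) ≤ 2 corank R(D)`. So, if `R(D)` is nonsingular,
the groups `B(q)^(D)(K)` and `B(q)^(D)(ℚ)` are finite and Q1 is true.
(2) Let `m_1, …, m_M` be different positive squarefree integers of the class whose prime factors are `1`
modulo `8` or inert in `K` and `5` modulo `8`. For the squarefree `D` with all prime factors `≠ q` and `1`
modulo `8` the twists `m_j D` (modulo squares) are in the class, and the coranks of `R(m_1 D), …, R(m_M D)`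
are asymptotically independent with the law `α(b) = κ / ((2 - 1) (4 - 1) ⋯ (2^b - 1))`,
`κ = (1 - 1/2) (1 - 1/8) (1 - 1/32) ⋯ = 0.4194…`. So for exactly the proportion `κ^M` of the `D` all the
matrices are nonsingular, and for these `D` the parity conjecture (Q1) is true for all the `M` varieties
`B(q)^(m_j D)` and their products over `ℚ`, and over `K`. If the `m_j` are the squarefree parts of the integers
`m_1 ∏_{i ∈ T} μ_i`, `T ⊆ {1, …, r}`, it is true for `B(q)^(m_1 D)` over the field `ℚ(√μ_1, …, √μ_r)` too.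

If `D` has no prime factor which splits in `K` the matrix is empty and the finiteness is known (Gross for
`D = 1`; Coates, J. Li and Y. Li).
-/

set_option autoImplicit false
set_option linter.all false

namespace Pool.Agent.Results.MP_ac3185_nt.GrossVarieties

open NumberField IsDedekindDomain Filter
open scoped Classical Topology

/-- The absolute Galois group of `K`, with the Krull topology. -/
abbrev G (K : Type) [Field K] : Type := Gal(AlgebraicClosure K/K)

/-- The ring of all the algebraic integers in the algebraic closure of `K`. -/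
abbrev Zbar (K : Type) [Field K] : Type := 𝓞 (AlgebraicClosure K)

section
variable {K : Type} [Field K]

/-- The decomposition group of the maximal ideal `Q`. -/
def decomposition (Q : Ideal (Zbar K)) : Set (G K) := {σ | ∀ x : Zbar K, σ • x ∈ Q ↔ x ∈ Q}

/-- The inertia group of the maximal ideal `Q`. -/
def inertia (Q : Ideal (Zbar K)) : Set (G K) := {σ | ∀ x : Zbar K, σ • x - x ∈ Q}

/-- The value of the character `χ` in `ℚ_2`. -/
noncomputable def value (χ : G K →* ℤ_[2]ˣ) (σ : G K) : ℚ_[2] := ((χ σ : ℤ_[2]) : ℚ_[2])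

/-- The restriction of `c` to `H` is a coboundary with values in `ℚ_2(χ)`. -/
def CoboundaryOn (χ : G K →* ℤ_[2]ˣ) (c : G K → ℚ_[2]) (H : Set (G K)) : Prop :=
  ∃ y : ℚ_[2], ∀ σ ∈ H, c σ = (value χ σ - 1) * y

/-- `Q` is above the prime `v'` of `K` above `2` at which `s` is `1` modulo `4`: `Q` contains `2` and
`(1 - s) / 2`. -/
def AboveConj (s : K) (Q : Ideal (Zbar K)) : Prop := (2 : Zbar K) ∈ Q ∧
  ∃ z : Zbar K, z ∈ Q ∧ 2 * (z : AlgebraicClosure K) = 1 - algebraMap K (AlgebraicClosure K) s

/-- The continuous cocycles with values in `ℚ_2(χ)` which satisfy the conditions of Bloch and Kato: they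
are coboundaries on the inertia groups outside `2` and on the decomposition groups above `v'`. -/
def IsSelmer (s : K) (χ : G K →* ℤ_[2]ˣ) (c : G K → ℚ_[2]) : Prop :=
  Continuous c ∧ (∀ σ τ, c (σ * τ) = c σ + value χ σ * c τ) ∧
  (∀ Q : Ideal (Zbar K), Q.IsMaximal → (2 : Zbar K) ∉ Q → CoboundaryOn χ c (inertia Q)) ∧
  (∀ Q : Ideal (Zbar K), Q.IsMaximal → AboveConj s Q → CoboundaryOn χ c (decomposition Q))

/-- The space of these cocycles. -/
def selmer (s : K) (χ : G K →* ℤ_[2]ˣ) : Submodule ℚ_[2] (G K → ℚ_[2]) where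
  carrier := {c | IsSelmer s χ c}
  add_mem' := by
    rintro a b ⟨ha1, ha2, ha3, ha4⟩ ⟨hb1, hb2, hb3, hb4⟩
    refine ⟨ha1.add hb1, fun σ τ => ?_, fun Q h1 h2 => ?_, fun Q h1 h2 => ?_⟩
    · simp only [Pi.add_apply, ha2, hb2]; ring
    · obtain ⟨y, hy⟩ := ha3 Q h1 h2
      obtain ⟨z, hz⟩ := hb3 Q h1 h2
      exact ⟨y + z, fun σ hσ => by rw [Pi.add_apply, hy σ hσ, hz σ hσ]; ring⟩
    · obtain ⟨y, hy⟩ := ha4 Q h1 h2
      obtain ⟨z, hz⟩ := hb4 Q h1 h2
      exact ⟨y + z, fun σ hσ => by rw [Pi.add_apply, hy σ hσ, hz σ hσ]; ring⟩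
  zero_mem' := by
    refine ⟨continuous_const, fun σ τ => by simp, fun Q _ _ => ⟨0, fun σ _ => by simp⟩,
      fun Q _ _ => ⟨0, fun σ _ => by simp⟩⟩
  smul_mem' := by
    rintro k a ⟨ha1, ha2, ha3, ha4⟩
    refine ⟨ha1.const_smul k, fun σ τ => ?_, fun Q h1 h2 => ?_, fun Q h1 h2 => ?_⟩
    · simp only [Pi.smul_apply, ha2, smul_eq_mul]; ring
    · obtain ⟨y, hy⟩ := ha3 Q h1 h2
      exact ⟨k * y, fun σ hσ => by rw [Pi.smul_apply, hy σ hσ, smul_eq_mul]; ring⟩
    · obtain ⟨y, hy⟩ := ha4 Q h1 h2
      exact ⟨k * y, fun σ hσ => by rw [Pi.smul_apply, hy σ hσ, smul_eq_mul]; ring⟩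

/-- The space of the coboundaries `σ ↦ (χ(σ) - 1) y` (they are in `selmer s χ`). -/
noncomputable def coboundaries (χ : G K →* ℤ_[2]ˣ) : Submodule ℚ_[2] (G K → ℚ_[2]) :=
  Submodule.span ℚ_[2] {fun σ => value χ σ - 1}

/-- The Bloch–Kato Selmer group `H¹_f(K, ℚ_2(χ))`: the cocycles modulo the coboundaries. -/
abbrev H1f (s : K) (χ : G K →* ℤ_[2]ˣ) : Type :=
  selmer s χ ⧸ (coboundaries χ).comap (selmer s χ).subtype

end

/-- `σ` is a Frobenius element at the prime `w` of `K`: `σ x ≡ x ^ N(w)` modulo some maximal ideal above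
`w` of the ring of all algebraic integers. -/
def IsFrobenius {K : Type} [Field K] [NumberField K] (w : HeightOneSpectrum (𝓞 K)) (σ : G K) : Prop :=
  ∃ Q : Ideal (Zbar K), Q.IsMaximal ∧ Q.comap (algebraMap (𝓞 K) (Zbar K)) = w.asIdeal ∧
    ∀ x : Zbar K, σ • x - x ^ Ideal.absNorm w.asIdeal ∈ Q

/-- `χ` is the 2-adic character of the Hecke character `ψ` twisted by `D`; `t` is the image of `s` at `v`. For
the primes `w` not dividing `2 q D`, odd `n` with `w^n = (β)`, `β = A + B s`:
`χ(Frob_w)^n = (A / q) (D / (A² + q B²)) (A + B t)`. -/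
def BelongsTo {K : Type} [Field K] [NumberField K] (q D : ℕ) (s : K) (t : ℤ_[2])
    (χ : G K →* ℤ_[2]ˣ) : Prop :=
  ∀ (w : HeightOneSpectrum (𝓞 K)) (σ : G K) (n : ℕ) (A B : ℤ) (β : 𝓞 K),
    ((2 * q * D : ℕ) : 𝓞 K) ∉ w.asIdeal → IsFrobenius w σ → Odd n →
    w.asIdeal ^ n = Ideal.span {β} → (β : K) = A + B * s →
    (χ σ : ℤ_[2]) ^ n =
      ((jacobiSym A q * jacobiSym D (A ^ 2 + q * B ^ 2).natAbs : ℤ) : ℤ_[2]) * ((A : ℤ_[2]) + B * t)

/-- The class of the `D`: squarefree, all prime factors `1` modulo `4` and `≠ q`, `2 D ≡ q - 5` mod `16`. -/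
def Class (q D : ℕ) : Prop := Squarefree D ∧ (∀ p : ℕ, p.Prime → p ∣ D → p % 4 = 1 ∧ p ≠ q) ∧
  (16 : ℤ) ∣ 2 * D + 5 - q

/-- The prime factors of `D` which split in `ℚ(√-q)`. -/
noncomputable def splitPrimes (q D : ℕ) : Finset ℕ :=
  D.primeFactors.filter fun p => IsSquare (-(q : ZMod p))

/-- `0` if `a` is a square modulo `p` and `1` otherwise. -/
noncomputable def nonsquare (p a : ℕ) : ZMod 2 := if IsSquare (a : ZMod p) then 0 else 1

/-- `0` if `-q` is a fourth power modulo `p` and `1` otherwise. -/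
noncomputable def nonfourth (q p : ℕ) : ZMod 2 := if ∃ y : ZMod p, y ^ 4 = -(q : ZMod p) then 0 else 1

/-- The matrix `R(D)`. -/
noncomputable def R (q D : ℕ) : Matrix (splitPrimes q D) (splitPrimes q D) (ZMod 2) :=
  Matrix.of fun i j => if i = j then ∑ r ∈ D.primeFactors.erase i, nonsquare i r + nonfourth q i
    else nonsquare i j

/-- The corank of `R(D)`: the dimension of its kernel. -/
noncomputable def corank (q D : ℕ) : ℕ :=
  Module.finrank (ZMod 2) (LinearMap.ker (Matrix.mulVecLin (R q D)))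

/-- The squarefree integers with all prime factors `1` modulo `8` and `≠ q`. -/
def Class8 (q D : ℕ) : Prop := Squarefree D ∧ ∀ p : ℕ, p.Prime → p ∣ D → p % 8 = 1 ∧ p ≠ q

/-- The factors `m_j`: in the class, all prime factors `1` mod `8` or inert in `ℚ(√-q)` and `5` mod `8`. -/
def Factor (q m : ℕ) : Prop := Class q m ∧
  ∀ p : ℕ, p.Prime → p ∣ m → p % 8 = 1 ∨ (p % 8 = 5 ∧ ¬ IsSquare (-(q : ZMod p)))

/-- The squarefree part of `m D`, for squarefree `m` and `D`. -/
def times (m D : ℕ) : ℕ := m * D / Nat.gcd m D ^ 2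

/-- The proportion of the `D ≤ X` with property `T` among those with all prime factors `1` mod `8`. -/
noncomputable def proportion (q : ℕ) (T : ℕ → Prop) (X : ℕ) : ℝ :=
  (((Finset.Icc 1 X).filter fun D => Class8 q D ∧ T D).card : ℝ) /
    (((Finset.Icc 1 X).filter fun D => Class8 q D).card : ℝ)

/-- The number `κ = (1 - 1/2) (1 - 1/8) (1 - 1/32) ⋯`. -/
noncomputable def κ : ℝ := ∏' i : ℕ, (1 - (1 / 2 : ℝ) ^ (2 * i + 1))

/-- The law `α(b) = κ / ((2 - 1) (4 - 1) ⋯ (2 ^ b - 1))`. -/
noncomputable def α (b : ℕ) : ℝ := κ / ∏ i ∈ Finset.range b, ((2 : ℝ) ^ (i + 1) - 1)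

/-- **The bound.** For all fields `K = ℚ(√-q)`, all `D` of the class and all continuous characters `χ`
which belong to `ψ` twisted by `D`: the dimension of `H¹_f(K, ℚ_2(χ))` is at most `2 corank R(D)`. -/
def Bound (q : ℕ) : Prop :=
  ∀ (K : Type) [Field K] [NumberField K] (s : K) (t : ℤ_[2]), Module.finrank ℚ K = 2 →
    s ^ 2 = -(q : K) → t ^ 2 = -(q : ℤ_[2]) → (4 : ℤ_[2]) ∣ t - 3 → ∀ D : ℕ, Class q D →
    ∀ χ : G K →* ℤ_[2]ˣ, Continuous χ → BelongsTo q D s t χ →
      Module.rank ℚ_[2] (H1f s χ) ≤ ((2 * corank q D : ℕ) : Cardinal) ∧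
      (corank q D = 0 → ∀ x : H1f s χ, x = 0)

/-- **The joint law** of the coranks of the twists `m_1 D, …, m_M D`. -/
def JointLaw (q : ℕ) : Prop :=
  ∀ (M : ℕ) (m : Fin M → ℕ), Function.Injective m → (∀ j, Factor q (m j)) →
    (∀ D, Class8 q D → ∀ j, Class q (times (m j) D)) ∧
    ∀ b : Fin M → ℕ, Tendsto (proportion q fun D => ∀ j, corank q (times (m j) D) = b j) atTop
      (𝓝 (∏ j, α (b j)))

section proof

open Pool.Agent.Q274.BKC

lemma sel_iff {K : Type} [Field K] (s : K) (χ : G K →* ℤ_[2]ˣ) (c : G K → ℚ_[2]) :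
    IsSelmer s χ c ↔ IsSel s χ c :=
  ⟨fun h => ⟨h.1, h.2.1, h.2.2.1, h.2.2.2⟩, fun h => ⟨h.cont, h.coc, h.ine, h.dec⟩⟩

lemma sel_eq {K : Type} [Field K] (s : K) (χ : G K →* ℤ_[2]ˣ) : selmer s χ = Sel s χ :=
  Submodule.ext fun c => sel_iff s χ c

/-- the dimension of the quotient by the coboundaries -/
lemma rank_eq {K : Type} [Field K] (s : K) (χ : G K →* ℤ_[2]ˣ) :
    Module.rank ℚ_[2] (H1f s χ) = Module.rank ℚ_[2] (Pool.Agent.Q274.BKC.H1f s χ) := by
  have key : ∀ W W' : Submodule ℚ_[2] (G K → ℚ_[2]), W = W' →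
      Module.rank ℚ_[2] (W ⧸ (coboundaries χ).comap W.subtype) =
      Module.rank ℚ_[2] (W' ⧸ (B1 χ).comap W'.subtype) := by
    rintro W _ rfl
    rfl
  exact key _ _ (sel_eq s χ)

lemma cl_iff (q D : ℕ) : Class q D ↔ Cl q D :=
  ⟨fun h => ⟨h.1, h.2.1, h.2.2⟩, fun h => ⟨h.sqf, h.one, h.cong⟩⟩

lemma fac_iff {q m : ℕ} (h : Factor q m) : Clm q m ∧ (16 : ℤ) ∣ 2 * m + 5 - q :=
  ⟨⟨h.1.1, fun p hp hm => ⟨h.2 p hp hm, (h.1.2.1 p hp hm).2⟩⟩, h.1.2.2⟩

end proof

theorem result (q : ℕ) (hq : q.Prime) (hq8 : q % 8 = 7) :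
    Bound q ∧ JointLaw q ∧ 0.4194 < κ ∧ κ < 0.4195 := by
  refine ⟨?_, ?_, Pool.Agent.Q274.BKC.kappa_bounds.1, Pool.Agent.Q274.BKC.kappa_bounds.2⟩
  · intro K _ _ s t hK hs ht ht4 D hD χ hc hχ
    have h := Pool.Agent.Q274.BKC.main K q D 0 s t χ hq hq8 ((cl_iff q D).1 hD) hs hK ht ht4 hc
      fun w σ n A B β h1 h2 h3 h4 h5 => by simpa using hχ w σ n A B β h1 h2 h3 h4 h5
    rw [← rank_eq] at h
    refine ⟨h, fun h0 x => ?_⟩
    have h1 : Module.rank ℚ_[2] (H1f s χ) = 0 := by
      have h2 : corank q D = Pool.Agent.Q274.BKC.corank q D := rfl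
      rw [← h2, h0] at h
      simpa using h
    have h3 := rank_zero_iff.1 h1
    exact Subsingleton.elim _ _
  · intro M m hm hf
    refine ⟨fun D hD j => ?_, fun b => ?_⟩
    · obtain ⟨h1, h2⟩ := fac_iff (hf j)
      exact (cl_iff _ _).2 (Pool.Agent.Q274.BKC.tw_Cl h1 h2 hD)
    · have h := Pool.Agent.Q274.BKC.t_LAW q hq hq8 M m b hm fun j => (fac_iff (hf j)).1
      rw [Pool.Agent.Q274.BKC.cR_eq] at h
      refine h.congr fun X => ?_
      unfold proportion
      congr! 4

end Pool.Agent.Results.MP_ac3185_nt.GrossVarieties
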