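import Pool.Agent.Q274.AV.Fam

/-!
# The parity conjecture for semistable abelian varieties: fields with prescribed local degrees

`A` is a semistable abelian variety over a number field `K`, and `F` runs through finite extensions of
`K`; no condition on the ramification of `F/K`. The definitions are in `Pool/Agent/Q274/AV/Defs.lean`:
`SemistableAV K` (the Galois representation `A(K̄) ⊗ ℚ`, the dimension, and at every prime the torus
in the reduction with the action of Frobenius on its characters), `rank`, `rootNumber`, `Parity`.
-/

set_option autoImplicit false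

namespace Pool.Agent.Results.MP_ac3185_nt.PrescribedLocalDegrees

open NumberField Pool.Agent.Q274.AV

/-- For all `q` in `S` the degrees `[F_w : ℚ_q]` of the completions of `F` at the primes `w` above `q`
belong to `D q`. -/
def LocalDegreesIn (S : Finset ℕ) (D : ℕ → Set ℕ) (F : Type) [Field F] [NumberField F] : Prop :=
  ∀ q ∈ S, ∀ w : Ideal (𝓞 F), w.IsPrime → (q : 𝓞 F) ∈ w →
    w.ramificationIdx ℤ * w.inertiaDeg ℤ ∈ D q

/-- For all `q` in `S` there is a member `d ≠ 0` of `D q` such that the greatest power of `2` which
divides `d` divides all degrees `[F_w : ℚ_q]`, `w` above `q`. -/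
def TwoPartsDivide (S : Finset ℕ) (D : ℕ → Set ℕ) (F : Type) [Field F] [NumberField F] : Prop :=
  ∀ q ∈ S, ∃ d ∈ D q, d ≠ 0 ∧ ∀ w : Ideal (𝓞 F), w.IsPrime → (q : 𝓞 F) ∈ w →
    2 ^ d.factorization 2 ∣ w.ramificationIdx ℤ * w.inertiaDeg ℤ

/-- **The fields with large local degrees suffice.** Let `A` be a semistable abelian variety over a
number field `K`, `S` a finite set of prime numbers, and for `q` in `S` let `D q` be a set of numbers
closed under positive multiples. If the parity conjecture holds for `A/F'` for all `F'/K` with the
local degrees over `q` in `D q` for all `q` in `S`, then it holds for `A/F` for all `F/K` such that for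
all `q` in `S` the `2`-part of some non-zero member of `D q` divides all local degrees of `F` over `q`;
in particular for all `F/K` if every `D q` contains an odd number. -/
theorem result (K : Type) [Field K] [NumberField K] (A : SemistableAV K) (S : Finset ℕ)
    (D : ℕ → Set ℕ) (hS : ∀ q ∈ S, q.Prime)
    (hD : ∀ q ∈ S, ∀ d ∈ D q, ∀ n : ℕ, 0 < n → d * n ∈ D q)
    (h : ∀ (F : Type) [Field F] [NumberField F] [Algebra K F], LocalDegreesIn S D F → A.Parity F) :
    (∀ (F : Type) [Field F] [NumberField F] [Algebra K F], TwoPartsDivide S D F → A.Parity F) ∧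
    ((∀ q ∈ S, ∃ d ∈ D q, Odd d) →
      ∀ (F : Type) [Field F] [NumberField F] [Algebra K F], A.Parity F) := by
  refine ⟨fun F _ _ _ hF => av_local A hS hD h F hF, fun hodd F _ _ _ =>
    av_local A hS hD h F fun q hq => ?_⟩
  obtain ⟨d, hd, hdo⟩ := hodd q hq
  refine ⟨d, hd, ?_, fun w _ _ => ?_⟩
  · rintro rfl
    exact (by decide : ¬ Odd 0) hdo
  · rw [Nat.factorization_eq_zero_of_not_dvd hdo.not_two_dvd_nat, pow_zero]
    exact one_dvd _

end Pool.Agent.Results.MP_ac3185_nt.PrescribedLocalDegrees
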